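import Pool.Agent.helper84.LP.SpecG
import Pool.Agent.helper34.IR.FWD
import Pool.Agent.helper9.IR.BK2

/-!
# MP_07c750, project LP, row BKA: the backward function
-/

open scoped MatrixGroups ContDiff Topology UpperHalfPlane ComplexConjugate
open UpperHalfPlane MeasureTheory Filter Set

set_option autoImplicit false

namespace Pool.Agent.LP

open Pool.Agent.RS
open Pool.Agent.MS (bq BB BA SF pf)
open Pool.Agent.HV (FW)
open Pool.Agent.EN (XG MG mkX mkM fl pr)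
open Pool.Agent.ER (Low LowJ)

noncomputable section

/-- a smooth function with values in `[0, 1]`, equal to `1` on `E` up to a set of measure `d`, supported in `W` -/
def BKA_P (Γ : Subgroup SL(2, ℝ)) (μ : Measure (XG Γ)) (E : Set (XG Γ)) (d : ℝ) (W : Set SL(2, ℝ)) (Ψ : SL(2, ℝ) → ℝ) : Prop :=
  IR.BK2_G Γ Ψ ∧ (∃ B : Set (XG Γ), μ.real B ≤ d ∧ ∀ g, mkX Γ g ∈ E → mkX Γ g ∉ B → Ψ g = 1) ∧ ∀ g, Ψ g ≠ 0 → g ∈ W

lemma BKA_mul (hSFP : IR.SFP_stmt) {Γ : Subgroup SL(2, ℝ)} {μ : Measure (XG Γ)} {E : Set (XG Γ)} {d d' : ℝ} {W W' : Set SL(2, ℝ)} {Ψ Φ : SL(2, ℝ) → ℝ}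
    (h1 : BKA_P Γ μ E d W Ψ) (h2 : BKA_P Γ μ E d' W' Φ) : BKA_P Γ μ E (d + d') (W ∩ W') (fun g => Ψ g * Φ g) := by
  obtain ⟨a1, ⟨B, b1, c1⟩, e1⟩ := h1
  obtain ⟨a2, ⟨B', b2, c2⟩, e2⟩ := h2
  refine ⟨IR.BK2_mul hSFP a1 a2, ⟨B ∪ B', (measureReal_union_le _ _).trans (add_le_add b1 b2), fun g hg hB => ?_⟩, fun g hg => ⟨e1 g (left_ne_zero_of_mul hg), e2 g (right_ne_zero_of_mul hg)⟩⟩
  rw [mem_union, not_or] at hB
  show Ψ g * Φ g = 1
  rw [c1 g hg hB.1, c2 g hg hB.2, mul_one]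

lemma BKA_G {Γ : Subgroup SL(2, ℝ)} {CB : ℝ} {Ψ Ψa Ψn Ψl : SL(2, ℝ) → ℝ} {n : ℝ} (h1 : SF Γ Ψ Ψa Ψn Ψl) (h2 : ∀ g, 0 ≤ Ψ g ∧ Ψ g ≤ 1)
    (h3 : ∀ g, |Ψn g| ≤ CB) (h4 : ∀ g, |Ψl g| ≤ CB * Real.exp n) : IR.BK2_G Γ Ψ :=
  ⟨Ψa, Ψn, Ψl, max CB (CB * Real.exp n), h1, h2, fun g => le_trans (h3 g) (le_max_left _ _), fun g => le_trans (h4 g) (le_max_right _ _)⟩

/-- one window -/
lemma BKA_box (hSFP : IR.SFP_stmt) (hXFL : EN.XFL_stmt) {Γ : Subgroup SL(2, ℝ)} {μ : Measure (XG Γ)} {E : Set (XG Γ)} {b d CB : ℝ}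
    (hBX : ∀ (n : ℝ) (A : Finset SL(2, ℝ)), 0 ≤ n →
      ∃ Ψ Ψa Ψn Ψl : SL(2, ℝ) → ℝ, SF Γ Ψ Ψa Ψn Ψl ∧ (∀ g, 0 ≤ Ψ g ∧ Ψ g ≤ 1) ∧ (∀ g, |Ψn g| ≤ CB) ∧ (∀ g, |Ψl g| ≤ CB * Real.exp n) ∧
        (∀ g, (∃ y ∈ A, ∃ γ : Γ, bq b b (b * Real.exp (-n)) (y⁻¹ * (γ : SL(2, ℝ)) * g)) → Ψ g = 1) ∧
        ∀ g, Ψ g ≠ 0 → ∃ y ∈ A, ∃ γ : Γ, bq (16 * b) (16 * b) (16 * b * Real.exp (-n)) (y⁻¹ * (γ : SL(2, ℝ)) * g))
    (n σ : ℝ) (A : Finset SL(2, ℝ)) (hn : 0 ≤ n) (hA : μ.real (E \ (fl Γ σ) ⁻¹' IR.BX Γ A b n) ≤ d) :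
    ∃ Ψ : SL(2, ℝ) → ℝ, BKA_P Γ μ E d {g | g * aM σ ∈ FW Γ A (16 * b) (Real.exp (-n))} Ψ := by
  obtain ⟨Ψ, Ψa, Ψn, Ψl, hS, hr, hn', hl, hone, hsup⟩ := hBX n A hn
  refine ⟨fun g => Ψ (g * aM σ), IR.BK2_sh hSFP (BKA_G hS hr hn' hl) σ, ⟨E \ (fl Γ σ) ⁻¹' IR.BX Γ A b n, hA, ?_⟩, ?_⟩
  · intro g hg hgB
    refine IR.FWD_one hXFL hone g ?_
    by_contra hcon
    exact hgB ⟨hg, hcon⟩
  · intro g hg
    exact hsup _ hg

/-- many digits in one cell -/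
lemma BKA_fib {Λ c : ℝ} {N1 : ℕ} (S : Finset ℤ) (f : ℤ → ℤ) (hΛ : 0 ≤ Λ) (hc : 0 < c) (hN : 1 ≤ N1) (hL : 1 ≤ Λ * (N1 * c))
    (hf : ∀ d ∈ S, f d / (N1 : ℤ) = d) : (S.card : ℝ) ≤ (Λ + 2) * ((S.image fun d => ⌊(f d : ℝ) * c⌋).card : ℝ) := by
  have hN' : (0 : ℝ) < N1 := by exact_mod_cast hN
  have hNz : (0 : ℤ) < N1 := by exact_mod_cast hN
  have h0 : 0 < (N1 : ℝ) * c := mul_pos hN' hc
  have h1 : ∀ q ∈ S.image (fun d => ⌊(f d : ℝ) * c⌋), (S.filter fun d => ⌊(f d : ℝ) * c⌋ = q).card ≤ ⌊Λ + 2⌋₊ := by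
    intro q _
    apply Nat.le_floor
    have h2 : (S.filter fun d => ⌊(f d : ℝ) * c⌋ = q) ⊆ Finset.Icc ⌈(q : ℝ) / (N1 * c) - 1⌉ ⌊((q : ℝ) + 1) / (N1 * c)⌋ := by
      intro d hd
      obtain ⟨hd1, hd2⟩ := Finset.mem_filter.1 hd
      have hq1 : (q : ℝ) ≤ f d * c := by rw [← hd2]; exact Int.floor_le _
      have hq2 : (f d : ℝ) * c < q + 1 := by rw [← hd2]; exact Int.lt_floor_add_one _
      have e1 : f d / (N1 : ℤ) * N1 ≤ f d := Int.ediv_mul_le _ hNz.ne'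
      have e2 : f d < (f d / (N1 : ℤ) + 1) * N1 := Int.lt_ediv_add_one_mul_self _ hNz
      rw [hf d hd1] at e1 e2
      have e1' : (d : ℝ) * N1 ≤ f d := by exact_mod_cast e1
      have e2' : (f d : ℝ) < (d + 1) * N1 := by exact_mod_cast e2
      rw [Finset.mem_Icc]
      constructor
      · apply Int.ceil_le.2
        rw [sub_le_iff_le_add, div_le_iff₀ h0]
        have := mul_le_mul_of_nonneg_right e2'.le hc.le
        linarith
      · apply Int.le_floor.2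
        rw [le_div_iff₀ h0]
        have := mul_le_mul_of_nonneg_right e1' hc.le
        linarith
    have h3 := Finset.card_le_card h2
    rw [Int.card_Icc] at h3
    have h4 : ((q : ℝ) + 1) / (N1 * c) - ((q : ℝ) / (N1 * c) - 1) ≤ Λ + 1 := by
      have : 1 / ((N1 : ℝ) * c) ≤ Λ := by
        rw [div_le_iff₀ h0]
        exact hL
      have e : ((q : ℝ) + 1) / (N1 * c) - ((q : ℝ) / (N1 * c) - 1) = 1 / ((N1 : ℝ) * c) + 1 := by ring
      linarith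
    have h5 : ((⌊((q : ℝ) + 1) / (N1 * c)⌋ : ℤ) : ℝ) ≤ ((q : ℝ) + 1) / (N1 * c) := Int.floor_le _
    have h6 : (q : ℝ) / (N1 * c) - 1 ≤ ((⌈(q : ℝ) / (N1 * c) - 1⌉ : ℤ) : ℝ) := Int.le_ceil _
    have h7 : ((⌊((q : ℝ) + 1) / (N1 * c)⌋ + 1 - ⌈(q : ℝ) / (N1 * c) - 1⌉ : ℤ) : ℝ) ≤ Λ + 2 := by
      push_cast
      linarith
    have h8 : (((⌊((q : ℝ) + 1) / (N1 * c)⌋ + 1 - ⌈(q : ℝ) / (N1 * c) - 1⌉).toNat : ℕ) : ℝ) ≤ Λ + 2 := by
      have h9 : (((⌊((q : ℝ) + 1) / (N1 * c)⌋ + 1 - ⌈(q : ℝ) / (N1 * c) - 1⌉).toNat : ℤ) : ℝ) = ((max (⌊((q : ℝ) + 1) / (N1 * c)⌋ + 1 - ⌈(q : ℝ) / (N1 * c) - 1⌉) 0 : ℤ) : ℝ) := by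
        rw [Int.toNat_eq_max]
      have h10 : (((⌊((q : ℝ) + 1) / (N1 * c)⌋ + 1 - ⌈(q : ℝ) / (N1 * c) - 1⌉).toNat : ℤ) : ℝ) = (((⌊((q : ℝ) + 1) / (N1 * c)⌋ + 1 - ⌈(q : ℝ) / (N1 * c) - 1⌉).toNat : ℕ) : ℝ) := by
        norm_cast
      rw [← h10, h9, Int.cast_max]
      exact max_le h7 (by push_cast; linarith)
    exact le_trans (by exact_mod_cast h3) h8
  have h2 := Finset.card_le_mul_card_image S ⌊Λ + 2⌋₊ h1
  have h3 : (S.card : ℝ) ≤ (⌊Λ + 2⌋₊ : ℝ) * ((S.image fun d => ⌊(f d : ℝ) * c⌋).card : ℝ) := by exact_mod_cast h2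
  refine h3.trans ?_
  gcongr
  exact Nat.floor_le (by linarith)

/-- the counts of the coarse digits -/
lemma BKA_ar {C a η Λ2 εc : ℝ} {G m : ℕ} (hC : 1 ≤ C) (hΛ : 10 ≤ Λ2) (hεc : εc = Real.pi / (2 * Λ2) * Real.exp (-(2 * (G * m)))) (J : Finset ℤ)
    (hJ : ∀ j ∈ J, |(j : ℝ) * εc| ≤ 3 / 10)
    (hcnt : ∀ i : ℕ, 1 ≤ i → i ≤ G → ∀ (y : ℝ) (J' : Finset ℤ), J' ⊆ J → (∀ j ∈ J', |(j : ℝ) * εc - y| ≤ Real.exp (-(((G : ℝ) - i) * m))) →
      ((J'.image fun j : ℤ => ⌊(j : ℝ) * εc * Real.exp (G * m)⌋).card : ℝ) ≤ C * Real.exp ((a + η) * (i * m))) :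
    AR ((Λ2 + 4) * C) a η G m (DJ G m J) := by
  obtain ⟨E, hE⟩ : ∃ E : ℝ, E = Real.exp ((G : ℝ) * m) := ⟨_, rfl⟩
  have hx0 : (0 : ℝ) ≤ (G : ℝ) * m := by positivity
  have hE1 : 1 ≤ E := by rw [hE]; exact Real.one_le_exp hx0
  have hE0 : 0 < E := by linarith
  have hpi := Real.pi_pos
  have hpi3 := Real.pi_gt_three
  have hpi4 := Real.pi_le_four
  have hpi5 : Real.pi < 3.15 := Real.pi_lt_d2
  have hΛ0 : 0 < Λ2 := by linarith
  have hεE : εc * (E * E) = Real.pi / (2 * Λ2) := by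
    rw [hεc, hE, ← Real.exp_add, mul_assoc, ← Real.exp_add, show -(2 * ((G : ℝ) * m)) + ((G : ℝ) * m + (G : ℝ) * m) = 0 by ring, Real.exp_zero, mul_one]
  have hε0 : 0 < εc := by rw [hεc]; positivity
  have hN : (1 : ℕ) ≤ nG G m := by
    show 1 ≤ ⌈Real.exp (G * m)⌉₊
    exact Nat.one_le_ceil_iff.2 (Real.exp_pos _)
  have hN1 : E ≤ (nG G m : ℝ) := by
    rw [hE]
    exact Nat.le_ceil _
  have hN2 : (nG G m : ℝ) ≤ 2 * E := by
    have : (nG G m : ℝ) < E + 1 := by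
      rw [hE]
      exact Nat.ceil_lt_add_one (Real.exp_pos _).le
    linarith
  obtain ⟨N, hNN⟩ : ∃ N : ℕ, N = nG G m := ⟨_, rfl⟩
  rw [← hNN] at hN hN1 hN2
  have hN' : (0 : ℝ) < N := by exact_mod_cast hN
  have hNz : (0 : ℤ) < N := by exact_mod_cast hN
  have hD : DJ G m J = J.image fun j : ℤ => j / (N : ℤ) := by rw [hNN]; rfl
  have hch : ∀ d : ℤ, ∃ j : ℤ, d ∈ DJ G m J → j ∈ J ∧ j / (N : ℤ) = d := by
    intro d
    by_cases hd : d ∈ DJ G m J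
    · rw [hD, Finset.mem_image] at hd
      obtain ⟨j, hj, e⟩ := hd
      exact ⟨j, fun _ => ⟨hj, e⟩⟩
    · exact ⟨0, fun h => absurd h hd⟩
  choose f hf using hch
  have hfd : ∀ d ∈ DJ G m J, (d : ℝ) * N ≤ f d ∧ (f d : ℝ) ≤ (d + 1) * N := by
    intro d hd
    have e1 : f d / (N : ℤ) * N ≤ f d := Int.ediv_mul_le _ hNz.ne'
    have e2 : f d < (f d / (N : ℤ) + 1) * N := Int.lt_ediv_add_one_mul_self _ hNz
    rw [(hf d hd).2] at e1 e2
    exact ⟨by exact_mod_cast e1, by exact_mod_cast e2.le⟩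
  have hΛC : Λ2 + 4 ≤ (Λ2 + 4) * C := by nlinarith
  refine ⟨?_, ?_⟩
  · intro d hd
    obtain ⟨e1, e2⟩ := hfd d hd
    have h1 := hJ (f d) (hf d hd).1
    rw [abs_mul, abs_of_pos hε0] at h1
    have h2 : |(f d : ℝ)| ≤ Λ2 * (E * E) := by
      have h3 : |(f d : ℝ)| * (Real.pi / (2 * Λ2)) ≤ 3 / 10 * (E * E) := by
        rw [← hεE]
        calc |(f d : ℝ)| * (εc * (E * E)) = (|(f d : ℝ)| * εc) * (E * E) := by ring
          _ ≤ 3 / 10 * (E * E) := by gcongr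
      have h4 : 0 < Real.pi / (2 * Λ2) := by positivity
      have h5 : 3 / 10 * (E * E) ≤ Λ2 * (E * E) * (Real.pi / (2 * Λ2)) := by
        have : Λ2 * (E * E) * (Real.pi / (2 * Λ2)) = Real.pi / 2 * (E * E) := by
          field_simp
        rw [this]
        gcongr
        linarith
      exact le_of_mul_le_mul_right (h3.trans h5) h4
    have h6 : |(d : ℝ)| * N ≤ Λ2 * (E * E) + N := by
      have hf1 := abs_le.1 h2
      rw [← abs_of_pos hN', ← abs_mul, abs_of_pos hN']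
      rw [abs_le]
      constructor
      · nlinarith [hf1.1]
      · nlinarith [hf1.2]
    have h7 : |(d : ℝ)| * N ≤ (Λ2 * E + 1) * N := by
      calc |(d : ℝ)| * N ≤ Λ2 * (E * E) + N := h6
        _ ≤ Λ2 * (E * N) + N := by gcongr
        _ = (Λ2 * E + 1) * N := by ring
    have h8 : |(d : ℝ)| ≤ Λ2 * E + 1 := le_of_mul_le_mul_right h7 hN'
    calc |(d : ℝ)| ≤ Λ2 * E + 1 := h8
      _ ≤ (Λ2 + 4) * E := by nlinarith
      _ ≤ (Λ2 + 4) * C * E := by gcongr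
      _ = (Λ2 + 4) * C * Real.exp (G * m) := by rw [hE]
  · intro i hi y
    rcases Nat.eq_zero_or_pos i with h0 | hi1
    · subst h0
      have h1 : ((DJ G m J).filter fun d : ℤ => |(d : ℝ) - y| ≤ Real.exp (((0 : ℕ) : ℝ) * m)) ⊆ Finset.Icc ⌈y - 1⌉ ⌊y + 1⌋ := by
        intro d hd
        obtain ⟨-, h2⟩ := Finset.mem_filter.1 hd
        rw [Nat.cast_zero, zero_mul, Real.exp_zero] at h2
        have h3 := abs_le.1 h2
        rw [Finset.mem_Icc]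
        exact ⟨Int.ceil_le.2 (by linarith [h3.1]), Int.le_floor.2 (by linarith [h3.2])⟩
      have h2 := Finset.card_le_card h1
      rw [Int.card_Icc] at h2
      have h3 : ⌊y + 1⌋ + 1 - ⌈y - 1⌉ ≤ 3 := by
        have h4 : ((⌊y + 1⌋ : ℤ) : ℝ) ≤ y + 1 := Int.floor_le _
        have h5 : y - 1 ≤ ((⌈y - 1⌉ : ℤ) : ℝ) := Int.le_ceil _
        have h6 : ((⌊y + 1⌋ + 1 - ⌈y - 1⌉ : ℤ) : ℝ) ≤ ((3 : ℤ) : ℝ) := by
          push_cast
          linarith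
        exact_mod_cast h6
      have h4 : ((DJ G m J).filter fun d : ℤ => |(d : ℝ) - y| ≤ Real.exp (((0 : ℕ) : ℝ) * m)).card ≤ 3 := by
        refine h2.trans ?_
        have := Int.toNat_le_toNat h3
        exact this
      have h5 : (((DJ G m J).filter fun d : ℤ => |(d : ℝ) - y| ≤ Real.exp (((0 : ℕ) : ℝ) * m)).card : ℝ) ≤ 3 := by exact_mod_cast h4
      refine h5.trans ?_
      have e : (a + η) * (((0 : ℕ) : ℝ) * m) = 0 := by rw [Nat.cast_zero]; ring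
      rw [e, Real.exp_zero, mul_one]
      linarith
    · obtain ⟨S, hS⟩ : ∃ S : Finset ℤ, S = (DJ G m J).filter fun d : ℤ => |(d : ℝ) - y| ≤ Real.exp (i * m) := ⟨_, rfl⟩
      have hSD : ∀ d ∈ S, d ∈ DJ G m J ∧ |(d : ℝ) - y| ≤ Real.exp (i * m) := by
        intro d hd
        rw [hS] at hd
        exact Finset.mem_filter.1 hd
      rw [← hS]
      have hL : 1 ≤ Λ2 * (N * (εc * E)) := by
        have h1 : Λ2 * (E * (εc * E)) ≤ Λ2 * (N * (εc * E)) := by gcongr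
        have h2 : Λ2 * (E * (εc * E)) = Real.pi / 2 := by
          have : Λ2 * (E * (εc * E)) = Λ2 * (εc * (E * E)) := by ring
          rw [this, hεE]
          field_simp
        rw [h2] at h1
        linarith
      have hfib := BKA_fib S f hΛ0.le (mul_pos hε0 hE0) hN hL (fun d hd => (hf d (hSD d hd).1).2)
      have hc2 := hcnt i hi1 hi (y * N * εc) (S.image f) (by
        intro j hj
        rw [Finset.mem_image] at hj
        obtain ⟨d, hd, rfl⟩ := hj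
        exact (hf d (hSD d hd).1).1) (by
        intro j hj
        rw [Finset.mem_image] at hj
        obtain ⟨d, hd, rfl⟩ := hj
        obtain ⟨hd1, hd2⟩ := hSD d hd
        obtain ⟨e1, e2⟩ := hfd d hd1
        have hx := abs_le.1 hd2
        have hR1 : 1 ≤ Real.exp ((i : ℝ) * m) := Real.one_le_exp (by positivity)
        have h1 : |(f d : ℝ) - y * N| ≤ 2 * Real.exp (i * m) * N := by
          rw [abs_le]
          constructor <;> nlinarith [hx.1, hx.2]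
        have h2 : |(f d : ℝ) * εc - y * N * εc| = |(f d : ℝ) - y * N| * εc := by
          rw [← abs_of_pos hε0, ← abs_mul, abs_of_pos hε0]
          congr 1
          ring
        rw [h2]
        have e5 : Real.exp (-(((G : ℝ) - i) * m)) * E = Real.exp (i * m) := by
          rw [hE, ← Real.exp_add]
          congr 1
          ring
        have h3 : |(f d : ℝ) - y * N| * εc * E ≤ Real.exp (i * m) := by
          calc |(f d : ℝ) - y * N| * εc * E ≤ 2 * Real.exp (i * m) * N * εc * E := by gcongr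
            _ ≤ 2 * Real.exp (i * m) * (2 * E) * εc * E := by gcongr
            _ = 4 * (εc * (E * E)) * Real.exp (i * m) := by ring
            _ ≤ 1 * Real.exp (i * m) := by
              gcongr
              rw [hεE, ← mul_div_assoc, div_le_one (by positivity)]
              nlinarith
            _ = Real.exp (i * m) := one_mul _
        rw [← e5] at h3
        exact le_of_mul_le_mul_right h3 hE0)
      rw [Finset.image_image] at hc2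
      have hco : S.image ((fun j : ℤ => ⌊(j : ℝ) * εc * Real.exp (G * m)⌋) ∘ f) = S.image fun d => ⌊(f d : ℝ) * (εc * E)⌋ := by
        apply Finset.image_congr
        intro d _
        show ⌊(f d : ℝ) * εc * Real.exp (G * m)⌋ = ⌊(f d : ℝ) * (εc * E)⌋
        rw [hE, mul_assoc]
      rw [hco] at hc2
      calc (S.card : ℝ) ≤ (Λ2 + 2) * ((S.image fun d => ⌊(f d : ℝ) * (εc * E)⌋).card : ℝ) := hfib
        _ ≤ (Λ2 + 2) * (C * Real.exp ((a + η) * (i * m))) := by gcongr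
        _ ≤ (Λ2 + 4) * (C * Real.exp ((a + η) * (i * m))) := by gcongr; norm_num
        _ = (Λ2 + 4) * C * Real.exp ((a + η) * (i * m)) := by ring

theorem BKA_proof (hBXM : MS.BXM_stmt) (hSFP : IR.SFP_stmt) (hCOL : COL_stmt) (hWCO : WCO_stmt) (hCTD : CTD_stmt)
    (hXFL : EN.XFL_stmt) : BKA_stmt := by
  intro Γ μ a hΓ hμ hinv ha Λ2 η δ G hΛ hη hδ hG
  have hG0 : (0 : ℝ) < G := by exact_mod_cast hG
  obtain ⟨a0, ha0, -, hB⟩ := hBXM Γ hΓ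
  obtain ⟨b, hb, hba, hbc⟩ : ∃ b : ℝ, 0 < b ∧ b ≤ a0 ∧ b ≤ 1 / 1600 :=
    ⟨min a0 (1 / 1600), lt_min ha0 (by norm_num), min_le_left _ _, min_le_right _ _⟩
  obtain ⟨CB, hCB, hBX⟩ := hB b hb hba
  obtain ⟨C, hC, hCT⟩ := hCTD Γ hΓ
  have hCO := hCOL Γ μ a hΓ hμ hinv ha
  obtain ⟨n0, hn0⟩ := hWCO Γ μ (Low Γ μ a) a hΓ hμ hinv hCO b η (δ / G) hb hη (by positivity)
  refine ⟨(Λ2 + 4) * C, max n0 1, by nlinarith, ?_⟩
  intro m εc hm hεc
  have hmn : n0 ≤ m := le_trans (le_max_left _ _) hm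
  have hm1 : 1 ≤ m := le_trans (le_max_right _ _) hm
  have hmr : (1 : ℝ) ≤ m := by exact_mod_cast hm1
  have hGr : (1 : ℝ) ≤ G := by exact_mod_cast hG
  have hA : ∀ i : ℕ, ∃ A : Finset SL(2, ℝ), 1 ≤ i → (A.card : ℝ) ≤ Real.exp ((a + η) * (i * m)) ∧
      μ.real (Low Γ μ a \ (fl Γ ((G : ℝ) * m)) ⁻¹' IR.BX Γ A b ((i : ℝ) * m)) ≤ δ / G := by
    intro i
    by_cases hi : 1 ≤ i
    · obtain ⟨A, hA, mA⟩ := hn0 (i * m) (hmn.trans (Nat.le_mul_of_pos_left m (by omega)))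
      have h1 := mA (G * m)
      rw [Nat.cast_mul] at hA h1
      rw [Nat.cast_mul] at h1
      exact ⟨A, fun _ => ⟨hA, h1⟩⟩
    · exact ⟨∅, fun h => absurd h hi⟩
  choose A hA using hA
  have PF : ∀ k : ℕ, ∃ Ψ : SL(2, ℝ) → ℝ, BKA_P Γ μ (Low Γ μ a) ((k + 1) * (δ / G))
      {g | ∀ i : ℕ, 1 ≤ i → i ≤ k + 1 → g * aM ((G : ℝ) * m) ∈ FW Γ (A i) (16 * b) (Real.exp (-((i : ℝ) * m)))} Ψ := by
    intro k
    induction k with
    | zero =>
        obtain ⟨Ψ, hP⟩ := BKA_box hSFP hXFL hBX (((1 : ℕ) : ℝ) * m) ((G : ℝ) * m) (A 1) (by positivity) (hA 1 le_rfl).2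
        refine ⟨Ψ, hP.1, ?_, ?_⟩
        · obtain ⟨B, hB1, hB2⟩ := hP.2.1
          refine ⟨B, hB1.trans (le_of_eq ?_), hB2⟩
          push_cast
          ring
        · intro g hg i hi1 hi2
          obtain rfl : i = 1 := by omega
          exact hP.2.2 g hg
    | succ k ih =>
        obtain ⟨Ψ, hP⟩ := ih
        obtain ⟨Φ, hΦ⟩ := BKA_box hSFP hXFL hBX (((k + 1 + 1 : ℕ) : ℝ) * m) ((G : ℝ) * m) (A (k + 1 + 1)) (by positivity) (hA (k + 1 + 1) (by omega)).2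
        have hM := BKA_mul hSFP hP hΦ
        refine ⟨_, hM.1, ?_, ?_⟩
        · obtain ⟨B, hB1, hB2⟩ := hM.2.1
          refine ⟨B, hB1.trans (le_of_eq ?_), hB2⟩
          push_cast
          ring
        · intro g hg i hi1 hi2
          have h1 := hM.2.2 g hg
          rcases Nat.lt_or_ge i (k + 1 + 1) with h | h
          · exact h1.1 i hi1 (by omega)
          · obtain rfl : i = k + 1 + 1 := by omega
            exact h1.2
  obtain ⟨Ψ, ⟨Ψa, Ψn, Ψl, B, S0, I0, N0, L0⟩, ⟨B', mB', oB'⟩, sP'⟩ := PF (G - 1)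
  refine ⟨Ψ, Ψa, Ψn, Ψl, B, S0, I0, N0, L0, ?_, ?_⟩
  · have hsub : Low Γ μ a \ IR.one Γ Ψ ⊆ B' := by
      intro x hx
      obtain ⟨g, rfl⟩ := (hXFL Γ).2.2.2.2.1 x
      by_contra hcon
      exact hx.2 ⟨g, rfl, oB' g hx.1 hcon⟩
    refine (measureReal_mono hsub).trans (mB'.trans (le_of_eq ?_))
    rw [Nat.cast_sub hG, Nat.cast_one, sub_add_cancel]
    field_simp
  · intro l l0 g J hl hll hl0 hJ
    have hε0 : 0 < εc := by rw [hεc]; positivity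
    have hW : ∀ i : ℕ, 1 ≤ i → i ≤ G → {k : SL(2, ℝ) | Ψ (k * aM (-(2 * (G * m)))) ≠ 0} ⊆
        {h | h * aM (-(((G : ℝ) - i) * m + i * m)) ∈ FW Γ (A i) (16 * b) (Real.exp (-((i : ℝ) * m)))} := by
      intro i hi1 hi2 k hk
      have h1 := sP' _ hk i hi1 (by omega)
      rw [mul_assoc k, ← IR.BK2_aM, show -(2 * ((G : ℝ) * m)) + (G : ℝ) * m = -(((G : ℝ) - i) * m + i * m) by ring] at h1
      exact h1
    have h10 : 10 * εc ≤ Real.exp (-((G : ℝ) * m)) := by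
      have h1 : Real.exp (-(2 * ((G : ℝ) * m))) = Real.exp (-((G : ℝ) * m)) * Real.exp (-((G : ℝ) * m)) := by
        rw [← Real.exp_add]
        congr 1
        ring
      have h2 : Real.exp (-((G : ℝ) * m)) ≤ Real.exp (-1) := by
        apply Real.exp_le_exp.2
        nlinarith
      have h3 : Real.exp (-1) < 0.3678794412 := Real.exp_neg_one_lt_d9
      have h4 : Real.pi / (2 * Λ2) ≤ 4 / 20 := by
        have h5 := Real.pi_le_four
        have h6 := Real.pi_pos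
        gcongr
        linarith
      have h7 : 0 < Real.exp (-((G : ℝ) * m)) := Real.exp_pos _
      rw [hεc, h1]
      have h8 : 10 * (Real.pi / (2 * Λ2) * (Real.exp (-((G : ℝ) * m)) * Real.exp (-((G : ℝ) * m)))) =
          (10 * (Real.pi / (2 * Λ2)) * Real.exp (-((G : ℝ) * m))) * Real.exp (-((G : ℝ) * m)) := by ring
      rw [h8]
      have h9 : 10 * (Real.pi / (2 * Λ2)) * Real.exp (-((G : ℝ) * m)) ≤ 1 := by
        have h11 : 10 * (Real.pi / (2 * Λ2)) * Real.exp (-((G : ℝ) * m)) ≤ 10 * (4 / 20) * 0.3678794412 := by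
          gcongr
          exact (h2.trans h3.le)
        refine h11.trans (by norm_num)
      calc _ ≤ 1 * Real.exp (-((G : ℝ) * m)) := by gcongr
        _ = _ := one_mul _
    refine BKA_ar hC hΛ hεc J (fun j hj => (hJ j hj).1) ?_
    intro i hi1 hi2 y J' hJ' hy
    have hig : (i : ℝ) ≤ G := by exact_mod_cast hi2
    have hs : 0 ≤ ((G : ℝ) - i) * m := mul_nonneg (by linarith) (by linarith)
    have hk : 0 ≤ (i : ℝ) * m := by positivity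
    have e1 : ((G : ℝ) - i) * m + i * m = G * m := by ring
    have h1 := hCT (16 * b) (((G : ℝ) - i) * m) (i * m) εc l l0 y (A i) g J' (by linarith) (by linarith) hs hk hε0 (by rw [e1]; exact h10) hl hll hl0
      (fun j hj => ⟨hy j hj, IR.BK2_JC (hW i hi1 hi2) (hJ j (hJ' hj))⟩)
    rw [e1] at h1
    calc _ ≤ C * (A i).card := h1
      _ ≤ C * Real.exp ((a + η) * (i * m)) := by
        gcongr
        exact (hA i hi1).1

end

end Pool.Agent.LP
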